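import Pool.Agent.H52.MG.Basic
import Pool.Agent.H52.MG.Targets

/-!
# Module MG4 : suppressing a class of degree two
-/

set_option autoImplicit false

noncomputable section

open Classical Module
open scoped Matrix
open Pool.Agent.H52.MG

namespace Pool.Agent.H21.MG

theorem ev_mid (T : Scr) (a b : Vec) (h1 : ev T ((1 / 2 : ℝ) • (a + b)) = 0) (h2 : ev T b = 0) :
    ev T a = 0 := by
  have e : ev T a = (2 : ℝ) • ev T ((1 / 2 : ℝ) • (a + b)) - ev T b := by
    apply vec_ext <;> simp only [ev, cross_eq, Pi.add_apply, Pi.sub_apply, Pi.smul_apply,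
      smul_eq_mul, Matrix.cons_val] <;> ring
  rw [e, h1, h2, smul_zero, sub_zero]

theorem mg4 (hGS : T_GS) (hGP : T_GP) : T_MG4 := by
  intro V _ G c p x₁ x₂ y z j hp h12 hy hz hyz e1 e2 honly hfr
  have hyz' : y ≠ z := fun h => hyz (by rw [h])
  have hpyz : p y ≠ p z := (hGP V p hp).1 y z hyz'
  set M : Vec := (1 / 2 : ℝ) • (p y + p z) with hM
  have hMy : M ≠ p y := by
    intro h
    apply hpyz
    have : p y = (2 : ℝ) • M - p z := by
      rw [hM]
      funext i
      simp only [Pi.sub_apply, Pi.smul_apply, Pi.add_apply, smul_eq_mul]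
      ring
    rw [h] at this
    funext i
    have := congrFun this i
    simp only [Pi.sub_apply, Pi.smul_apply, smul_eq_mul] at this
    linarith
  set p0 : V → Vec := fun v => if c v = c x₁ then M else p v with hp0
  have hin : ∀ v, c v = c x₁ → p0 v = M := fun v h => if_pos h
  have hout : ∀ v, c v ≠ c x₁ → p0 v = p v := fun v h => if_neg h
  have hle : finrank ℝ (Mot G c p) ≤ finrank ℝ (Mot G c p0) := hGS V _ _ _ p p0 hp
  refine hle.trans ?_
  -- consequences for motions at `p0`
  have hA : ∀ S ∈ Mot G c p0, ev (S x₁) M = ev (S y) M ∧ ev (S x₁) (p y) = ev (S y) (p y) ∧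
      ev (S x₁) M = ev (S z) M ∧ ev (S x₁) (p z) = ev (S z) (p z) := by
    intro S hS
    obtain ⟨h1, h2⟩ := mem_Mot.mp hS
    have a1 := h2 x₁ y e1
    have a2 := h2 y x₁ e1.symm
    have a3 := h2 x₂ z e2
    have a4 := h2 z x₂ e2.symm
    rw [hin x₁ rfl] at a1
    rw [hout y hy] at a2
    rw [hin x₂ h12.symm] at a3
    rw [hout z hz] at a4
    rw [← h1 x₁ x₂ h12] at a3 a4
    exact ⟨a1, a2.symm, a3, a4.symm⟩
  have hB : ∀ S ∈ Mot G c p0, ev (S y) (p y) = ev (S z) (p y) ∧ ev (S y) (p z) = ev (S z) (p z) := by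
    intro S hS
    obtain ⟨a1, a2, a3, a4⟩ := hA S hS
    constructor
    · have h := ev_mid (S x₁ - S z) (p y) (p z) (by rw [ev_sub, ← hM, a3, sub_self])
        (by rw [ev_sub, a4, sub_self])
      rw [ev_sub, sub_eq_zero] at h
      rw [← a2, h]
    · have h := ev_mid (S x₁ - S y) (p z) (p y) (by
        rw [ev_sub, add_comm (p z), ← hM, a1, sub_self]) (by rw [ev_sub, a2, sub_self])
      rw [ev_sub, sub_eq_zero] at h
      rw [← h, a4]
  -- the map
  let Φ : (V → Scr) →ₗ[ℝ] (V → Scr) :=
    { toFun := fun S v => if c v = c x₁ then S y else S v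
      map_add' := by
        intro S T
        funext v
        simp only [Pi.add_apply]
        split_ifs <;> rfl
      map_smul' := by
        intro r S
        funext v
        simp only [Pi.smul_apply, RingHom.id_apply]
        split_ifs <;> rfl }
  have hΦin : ∀ S v, c v = c x₁ → Φ S v = S y := fun S v h => if_pos h
  have hΦout : ∀ S v, c v ≠ c x₁ → Φ S v = S v := fun S v h => if_neg h
  have hΦ : ∀ S ∈ Mot G c p0, Φ S ∈ Mot (addE (delS G (cls c x₁)) y z) (mrg c y x₁) p := by
    intro S hS
    obtain ⟨h1, h2⟩ := mem_Mot.mp hS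
    obtain ⟨b1, b2⟩ := hB S hS
    rw [mem_Mot]
    constructor
    · intro u w huw
      unfold mrg at huw
      by_cases hu : c u = c x₁
      · by_cases hw : c w = c x₁
        · rw [hΦin S u hu, hΦin S w hw]
        · rw [if_pos hu, if_neg hw] at huw
          rw [hΦin S u hu, hΦout S w hw]
          exact h1 _ _ huw
      · by_cases hw : c w = c x₁
        · rw [if_neg hu, if_pos hw] at huw
          rw [hΦout S u hu, hΦin S w hw]
          exact h1 _ _ huw
        · rw [if_neg hu, if_neg hw] at huw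
          rw [hΦout S u hu, hΦout S w hw]
          exact h1 _ _ huw
    · intro u w huw
      rcases huw with ⟨h, hu, hw⟩ | ⟨_, ⟨rfl, rfl⟩ | ⟨rfl, rfl⟩⟩
      · have hu' : c u ≠ c x₁ := hu
        have hw' : c w ≠ c x₁ := hw
        rw [hΦout S u hu', hΦout S w hw', ← hout u hu']
        exact h2 u w h
      · rw [hΦout S _ hy, hΦout S _ hz]
        exact b1
      · rw [hΦout S _ hy, hΦout S _ hz]
        exact b2.symm
  let f : Mot G c p0 →ₗ[ℝ] Mot (addE (delS G (cls c x₁)) y z) (mrg c y x₁) p := Φ.restrict hΦ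
  have hf := LinearMap.finrank_range_add_finrank_ker f
  have h1 : finrank ℝ (LinearMap.range f) ≤ 6 + j := (Submodule.finrank_le _).trans hfr
  have h2 : finrank ℝ (LinearMap.ker f) ≤ 1 := by
    let g : LinearMap.ker f →ₗ[ℝ] Scr :=
      ((LinearMap.proj x₁ : (V → Scr) →ₗ[ℝ] Scr).comp (Submodule.subtype _)).comp
        (Submodule.subtype _)
    have hker : ∀ S : LinearMap.ker f, Φ ((S : Mot G c p0) : V → Scr) = 0 := by
      intro S
      have := LinearMap.mem_ker.mp S.2
      exact congrArg Subtype.val this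
    have hgi : Function.Injective g := by
      have hz : ∀ S : LinearMap.ker f, g S = 0 → S = 0 := ?_
      · intro S T hST
        have h3 : g (S - T) = 0 := by
          change ((S : Mot G c p0) : V → Scr) x₁ - ((T : Mot G c p0) : V → Scr) x₁ = 0
          exact sub_eq_zero.mpr hST
        exact sub_eq_zero.mp (hz _ h3)
      intro S hS
      have hS1 : ((S : Mot G c p0) : V → Scr) x₁ = 0 := hS
      obtain ⟨k1, k2⟩ := mem_Mot.mp (S : Mot G c p0).2
      apply Subtype.ext
      apply Subtype.ext
      funext v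
      by_cases hv : c v = c x₁
      · rw [k1 v x₁ hv, hS1]
        rfl
      · rw [← hΦout ((S : Mot G c p0) : V → Scr) v hv, hker S]
        rfl
    have hgr : LinearMap.range g ≤ Submodule.span ℝ {lin M (p y)} := by
      rintro _ ⟨S, rfl⟩
      have hSy : ((S : Mot G c p0) : V → Scr) y = 0 := by
        rw [← hΦout ((S : Mot G c p0) : V → Scr) y hy, hker S]
        rfl
      obtain ⟨a1, a2, _, _⟩ := hA _ (S : Mot G c p0).2
      rw [hSy, ev_zero] at a1 a2
      obtain ⟨r, hr⟩ := scr_two _ _ _ hMy a1 a2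
      rw [Submodule.mem_span_singleton]
      exact ⟨r, hr.symm⟩
    calc finrank ℝ (LinearMap.ker f) = finrank ℝ (LinearMap.range g) :=
          (LinearMap.finrank_range_of_inj hgi).symm
      _ ≤ finrank ℝ (Submodule.span ℝ {lin M (p y)}) := Submodule.finrank_mono hgr
      _ ≤ 1 := by
        rw [finrank_span_singleton (lin_ne_zero _ _ hMy)]
  omega

end Pool.Agent.H21.MG
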