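import Pool.Agent.H52.MG.Basic
import Pool.Agent.H52.MG.Targets

/-!
# Module S4C : deleting a class of degree two
-/

set_option autoImplicit false

noncomputable section

open Classical
open Pool.Agent.H52.MG

namespace Pool.Agent.H21.MG

section

variable {V : Type} [Fintype V] (G : SimpleGraph V) (c : V → V) (a u b w : V)
  (hD : Deg2 G c a u b w) (d : V → V) (hd : Coarse (mrg c u a) d)

include hD hd in
theorem da (v : V) (hv : c v = c a) : d v = d u := by
  apply hd
  unfold mrg
  rw [if_pos hv, if_neg hD.ua]

include hD hd in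
theorem coarse_c : Coarse c d := by
  intro x y hxy
  by_cases hx : c x = c a
  · rw [da G c a u b w hD d hd x hx, da G c a u b w hD d hd y (hxy ▸ hx)]
  · apply hd
    unfold mrg
    rw [if_neg hx, if_neg (hxy ▸ hx), hxy]

include hD hd in
/-- crossing edges of `G` are either crossing in `delS` or equal to `bw` -/
theorem cross (x y : V) (h : G.Adj x y) (hxy : d x ≠ d y) :
    (delS G (cls c a)).Adj x y ∨ (x = b ∧ y = w) ∨ (x = w ∧ y = b) := by
  by_cases hx : c x = c a
  · by_cases hy : c y = c a
    · exact absurd ((da G c a u b w hD d hd x hx).trans (da G c a u b w hD d hd y hy).symm) hxy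
    · rcases hD.o x y hx hy h with ⟨rfl, rfl⟩ | ⟨rfl, rfl⟩
      · exact absurd (da G c x y b w hD d hd x rfl) hxy
      · exact Or.inr (Or.inl ⟨rfl, rfl⟩)
  · by_cases hy : c y = c a
    · rcases hD.o y x hy hx h.symm with ⟨rfl, rfl⟩ | ⟨rfl, rfl⟩
      · exact absurd (da G c y x b w hD d hd y rfl).symm hxy
      · exact Or.inr (Or.inr ⟨rfl, rfl⟩)
    · exact Or.inl ⟨h, hx, hy⟩

include hD hd in
theorem partB (hT : Tt G c) (huw : d u = d w) :
    s2 (delS G (cls c a)) d = s2 G d ∧ (2 ≤ pt d → 2 ≤ s2 (delS G (cls c a)) d) ∧
      0 ≤ s2 (delS G (cls c a)) d := by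
  have h1 : cr2 (delS G (cls c a)) d = cr2 G d := by
    unfold cr2
    congr 1
    ext x
    simp only [Finset.mem_filter, Finset.mem_univ, true_and]
    constructor
    · rintro ⟨h, h'⟩
      exact ⟨h.1, h'⟩
    · rintro ⟨h, h'⟩
      refine ⟨?_, h'⟩
      rcases cross G c a u b w hD d hd _ _ h h' with h2 | ⟨h2, h3⟩ | ⟨h2, h3⟩
      · exact h2
      · rw [h2, h3, da G c a u b w hD d hd b hD.cb, huw] at h'
        exact absurd rfl h'
      · rw [h2, h3, da G c a u b w hD d hd b hD.cb, huw] at h'
        exact absurd rfl h'
  have h2 : s2 (delS G (cls c a)) d = s2 G d := by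
    unfold s2
    rw [h1]
  have h3 : 2 ≤ pt d → 2 ≤ s2 (delS G (cls c a)) d := by
    intro h
    rw [h2]
    exact hT d (coarse_c G c a u b w hD d hd) h
  refine ⟨h2, h3, ?_⟩
  by_cases h : 2 ≤ pt d
  · have := h3 h
    omega
  · unfold s2
    have : pt d ≤ 1 := by omega
    omega

include hD hd in
theorem partA (h6 : ∀ d : V → V, Coarse c d → (∀ v, d v = d a → c v = c a) → 6 ≤ s2 G d) :
    -2 ≤ s2 (delS G (cls c a)) d := by
  let d' : V → Option V := fun v => if c v = c a then none else some (d v)
  have hin : ∀ v, c v = c a → d' v = none := fun v h => if_pos h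
  have hout : ∀ v, c v ≠ c a → d' v = some (d v) := fun v h => if_neg h
  obtain ⟨e, he, _, _, hes⟩ := exists_relabel' G d'
  have h1 : 6 ≤ s2 G e := by
    apply h6
    · intro x y hxy
      rw [he]
      by_cases hx : c x = c a
      · rw [hin x hx, hin y (hxy ▸ hx)]
      · rw [hout x hx, hout y (hxy ▸ hx), coarse_c G c a u b w hD d hd x y hxy]
    · intro v hv
      rw [he, hin a rfl] at hv
      by_contra hc
      rw [hout v hc] at hv
      exact absurd hv (by simp)
  rw [hes] at h1
  have h2 : pt d + 1 ≤ pt d' := by
    unfold pt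
    have h3 : insert none ((Finset.univ.image d).image some) ⊆ Finset.univ.image d' := by
      intro x hx
      rw [Finset.mem_insert] at hx
      rcases hx with rfl | hx
      · exact Finset.mem_image.mpr ⟨a, Finset.mem_univ _, hin a rfl⟩
      · obtain ⟨y, hy, rfl⟩ := Finset.mem_image.mp hx
        obtain ⟨v, _, rfl⟩ := Finset.mem_image.mp hy
        by_cases hv : c v = c a
        · refine Finset.mem_image.mpr ⟨u, Finset.mem_univ _, ?_⟩
          rw [hout u hD.ua, da G c a u b w hD d hd v hv]
        · exact Finset.mem_image.mpr ⟨v, Finset.mem_univ _, hout v hv⟩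
    have h4 := Finset.card_le_card h3
    rw [Finset.card_insert_of_notMem (by simp), Finset.card_image_of_injective _
      (Option.some_injective V)] at h4
    convert h4
  have h3 : cr2 G d' ≤ cr2 (delS G (cls c a)) d + 4 := by
    unfold cr2
    have h4 : (Finset.univ.filter (fun x : V × V => G.Adj x.1 x.2 ∧ d' x.1 ≠ d' x.2)) ⊆
        (Finset.univ.filter (fun x : V × V => (delS G (cls c a)).Adj x.1 x.2 ∧ d x.1 ≠ d x.2)) ∪
          {(a, u), (u, a), (b, w), (w, b)} := by
      rintro ⟨x, y⟩ hx
      simp only [Finset.mem_filter, Finset.mem_univ, true_and] at hx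
      obtain ⟨h, h'⟩ := hx
      rw [Finset.mem_union]
      by_cases hx : c x = c a
      · by_cases hy : c y = c a
        · rw [hin x hx, hin y hy] at h'
          exact absurd rfl h'
        · right
          rcases hD.o x y hx hy h with ⟨rfl, rfl⟩ | ⟨rfl, rfl⟩ <;> simp
      · by_cases hy : c y = c a
        · right
          rcases hD.o y x hy hx h.symm with ⟨rfl, rfl⟩ | ⟨rfl, rfl⟩ <;> simp
        · left
          rw [hout x hx, hout y hy] at h'
          simp only [Finset.mem_filter, Finset.mem_univ, true_and]
          exact ⟨⟨h, hx, hy⟩, fun h2 => h' (congrArg some h2)⟩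
    have h5 := (Finset.card_le_card h4).trans ((Finset.card_union_le _ _).trans
      (Nat.add_le_add_left Finset.card_le_four _))
    refine (le_of_eq ?_).trans h5
    congr!
  unfold s2 at h1 ⊢
  omega

end

theorem s4c : T_S4C := by
  intro V _ G c a u b w hD hT h6
  constructor
  · intro d hd
    have := partA G c a u b w hD d hd h6
    push_cast
    linarith
  · intro d hd huw
    exact (partB G c a u b w hD d hd hT huw).2.2

theorem s4d : T_S4D := by
  intro V _ G c a u b w hD hT hC hw3 huwA h6 d hd
  have hA := partA G c a u b w hD d hd h6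
  by_contra hneg
  simp only [Nat.cast_zero, mul_zero, neg_zero, not_le] at hneg
  have hdd : d u ≠ d w := by
    intro h
    have := (partB G c a u b w hD d hd hT h).2.2
    omega
  obtain ⟨r, hr⟩ := s2_even (delS G (cls c a)) d
  have hs : s2 (delS G (cls c a)) d = -2 := by omega
  have hadj : (delS G (cls c a)).Adj u w := ⟨huwA, hD.ua, hD.wa⟩
  have hpt2 : 2 ≤ pt d := by
    unfold pt
    rw [show (2 : ℕ) = 1 + 1 from rfl, Nat.succ_le_iff, Finset.one_lt_card]
    exact ⟨d u, Finset.mem_image_of_mem _ (Finset.mem_univ _), d w,
      Finset.mem_image_of_mem _ (Finset.mem_univ _), hdd⟩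
  by_cases hpt : 3 ≤ pt d
  · let d2 : V → V := fun v => if d v = d w then d u else d v
    have e1 : ∀ v, d v = d w → d2 v = d u := fun v h => if_pos h
    have e2 : ∀ v, d v ≠ d w → d2 v = d v := fun v h => if_neg h
    have hd2 : Coarse (mrg c u a) d2 := by
      intro x y hxy
      have := hd x y hxy
      change (if d x = d w then d u else d x) = (if d y = d w then d u else d y)
      rw [this]
    have huw2 : d2 u = d2 w := by rw [e1 w rfl, e2 u hdd]
    have p1 : pt d ≤ pt d2 + 1 := by
      unfold pt
      have h3 : Finset.univ.image d ⊆ insert (d w) (Finset.univ.image d2) := by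
        intro x hx
        obtain ⟨v, _, rfl⟩ := Finset.mem_image.mp hx
        rw [Finset.mem_insert]
        by_cases h : d v = d w
        · exact Or.inl h
        · exact Or.inr (Finset.mem_image.mpr ⟨v, Finset.mem_univ _, e2 v h⟩)
      exact (Finset.card_le_card h3).trans (Finset.card_insert_le _ _)
    have p2 : cr2 (delS G (cls c a)) d2 + 2 ≤ cr2 (delS G (cls c a)) d := by
      unfold cr2
      have hdis : Disjoint (Finset.univ.filter (fun x : V × V =>
          (delS G (cls c a)).Adj x.1 x.2 ∧ d2 x.1 ≠ d2 x.2)) {(u, w), (w, u)} := by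
        rw [Finset.disjoint_left]
        intro x hx hx'
        simp only [Finset.mem_filter, Finset.mem_univ, true_and] at hx
        rw [Finset.mem_insert, Finset.mem_singleton] at hx'
        rcases hx' with rfl | rfl
        · exact hx.2 huw2
        · exact hx.2 huw2.symm
      have hcard : ({(u, w), (w, u)} : Finset (V × V)).card = 2 := by
        rw [Finset.card_pair]
        intro h
        have := congrArg Prod.fst h
        simp only at this
        exact hdd (by rw [this])
      rw [← hcard, ← Finset.card_union_of_disjoint hdis]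
      apply Finset.card_le_card
      intro x hx
      rw [Finset.mem_union] at hx
      simp only [Finset.mem_filter, Finset.mem_univ, true_and]
      rcases hx with hx | hx
      · simp only [Finset.mem_filter, Finset.mem_univ, true_and] at hx
        refine ⟨hx.1, fun h => hx.2 ?_⟩
        change (if d x.1 = d w then d u else d x.1) = (if d x.2 = d w then d u else d x.2)
        rw [h]
      · rw [Finset.mem_insert, Finset.mem_singleton] at hx
        rcases hx with rfl | rfl
        · exact ⟨hadj, hdd⟩
        · exact ⟨hadj.symm, hdd.symm⟩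
    have p3 := (partB G c a u b w hD d2 hd2 hT huw2).2.1 (by omega)
    unfold s2 at p3 hs
    omega
  · have hpt' : pt d = 2 := by omega
    have hcr : cr2 (delS G (cls c a)) d = 2 := by
      unfold s2 at hs
      rw [hpt'] at hs
      push_cast at hs
      omega
    -- the only crossing pairs of `delS` are `(u, w)` and `(w, u)`
    have hcross : ∀ x y, (delS G (cls c a)).Adj x y → d x ≠ d y →
        (x = u ∧ y = w) ∨ (x = w ∧ y = u) := by
      have hsub : ({(u, w), (w, u)} : Finset (V × V)) ⊆ Finset.univ.filter (fun x : V × V =>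
          (delS G (cls c a)).Adj x.1 x.2 ∧ d x.1 ≠ d x.2) := by
        intro x hx
        rw [Finset.mem_insert, Finset.mem_singleton] at hx
        simp only [Finset.mem_filter, Finset.mem_univ, true_and]
        rcases hx with rfl | rfl
        · exact ⟨hadj, hdd⟩
        · exact ⟨hadj.symm, hdd.symm⟩
      have hcard : ({(u, w), (w, u)} : Finset (V × V)).card = 2 := by
        rw [Finset.card_pair]
        intro h
        have := congrArg Prod.fst h
        simp only at this
        exact hdd (by rw [this])
      have heq := Finset.eq_of_subset_of_card_le hsub (by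
        rw [hcard]
        unfold cr2 at hcr
        exact hcr.le)
      intro x y h h'
      have hm : (x, y) ∈ ({(u, w), (w, u)} : Finset (V × V)) := by
        rw [heq]
        simp only [Finset.mem_filter, Finset.mem_univ, true_and]
        exact ⟨h, h'⟩
      rw [Finset.mem_insert, Finset.mem_singleton] at hm
      rcases hm with h | h
      · exact Or.inl ⟨congrArg Prod.fst h, congrArg Prod.snd h⟩
      · exact Or.inr ⟨congrArg Prod.fst h, congrArg Prod.snd h⟩
    have hdb : d b = d u := da G c a u b w hD d hd b hD.cb
    have hda : d a = d u := da G c a u b w hD d hd a rfl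
    let Z : Set V := {v | d v = d w}
    have huZ : u ∉ Z := hdd
    have hbZ : b ∉ Z := fun h => hdd (hdb.symm.trans h)
    have haZ : a ∉ Z := fun h => hdd (hda.symm.trans h)
    have hub : u ≠ b := by
      rintro rfl
      exact hD.ua hD.cb
    have hua : u ≠ a := by
      rintro rfl
      exact hD.ua rfl
    have hleave : ∀ x y, x ∈ Z → y ∉ Z → G.Adj x y → x = w ∧ (y = u ∨ y = b) := by
      intro x y hx hy h
      have hxy : d x ≠ d y := by
        intro h'
        exact hy (h'.symm.trans hx)
      rcases cross G c a u b w hD d hd x y h hxy with h1 | ⟨rfl, rfl⟩ | ⟨rfl, rfl⟩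
      · rcases hcross x y h1 hxy with ⟨rfl, rfl⟩ | ⟨rfl, rfl⟩
        · exact absurd hx huZ
        · exact ⟨rfl, Or.inl rfl⟩
      · exact absurd hx hbZ
      · exact ⟨rfl, Or.inr rfl⟩
    have hcl : ClU c Z := by
      intro x y hxy hx
      exact (coarse_c G c a u b w hD d hd x y hxy).symm.trans hx
    have hC' := hC Z hcl w u b rfl huZ hbZ hub huwA.symm hD.e2.symm hleave
    have hZc : ¬ Zᶜ.ncard ≤ 2 := by
      intro hle
      have h3 : ({a, b, u} : Set V) ⊆ Zᶜ := by
        rintro x (rfl | rfl | rfl)
        · exact haZ
        · exact hbZ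
        · exact huZ
      have h4 := Set.ncard_le_ncard h3 (Set.toFinite _)
      have h5 : ({a, b, u} : Set V).ncard = 3 := by
        rw [Set.ncard_eq_toFinset_card']
        have : ({a, b, u} : Set V).toFinset = {a, b, u} := by
          ext x
          simp
        rw [this]
        exact Finset.card_eq_three.mpr ⟨a, b, u, hD.ab, hua.symm, hub.symm, rfl⟩
      omega
    have hZ1 : Z.ncard ≤ 1 := hC'.resolve_right hZc
    have hZw : ∀ x ∈ Z, x = w := by
      intro x hx
      exact (Set.ncard_le_one (Set.toFinite _)).mp hZ1 x hx w rfl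
    have hdg : dgc G c w ≤ 2 := by
      unfold dgc
      have hsub : (Finset.univ.filter (fun x : V × V => c x.1 = c w ∧ c x.2 ≠ c w ∧
          G.Adj x.1 x.2)) ⊆ {(w, u), (w, b)} := by
        rintro ⟨x, y⟩ hx
        simp only [Finset.mem_filter, Finset.mem_univ, true_and] at hx
        obtain ⟨h1, h2, h3⟩ := hx
        have hxw : x = w := hZw x (coarse_c G c a u b w hD d hd x w h1)
        have hy : y ∉ Z := by
          intro hy
          have := hZw y hy
          rw [this] at h2
          exact h2 rfl
        have := (hleave x y (by rw [hxw]; rfl) hy h3).2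
        rw [Finset.mem_insert, Finset.mem_singleton]
        rcases this with h | h
        · left; rw [hxw, h]
        · right; rw [hxw, h]
      exact (Finset.card_le_card hsub).trans Finset.card_le_two
    omega

end Pool.Agent.H21.MG
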